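import Mathlib

set_option autoImplicit false

/-!
# `(k,t)`-regular graphs (MP_877e0f_co): definitions and blueprint
-/

namespace Pool.Agent.H635KT

/-- Every vertex has exactly `k` neighbours and every edge lies on exactly `t` triangles. -/
def IsKT {V : Type} (G : SimpleGraph V) (k t : ℕ) : Prop :=
  (∀ v, (G.neighborSet v).encard = k) ∧
    ∀ u v, G.Adj u v → (G.neighborSet u ∩ G.neighborSet v).encard = t

/-- finset version -/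
def NKT {V : Type} [DecidableEq V] (N : V → Finset V) (k t : ℕ) : Prop :=
  (∀ u v, u ∈ N v ↔ v ∈ N u) ∧ (∀ v, v ∉ N v) ∧ (∀ v, (N v).card = k) ∧
    ∀ u v, u ∈ N v → (N u ∩ N v).card = t

/-- Local structure at an edge `x y`. -/
def S_CNT : Prop := ∀ (V : Type) [DecidableEq V] (N : V → Finset V) (k t b : ℕ), NKT N k t →
  k = t + b + 1 → ∀ x y, y ∈ N x →
    (N x \ insert y (N y)).card = b ∧ (N y \ insert x (N x)).card = b ∧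
    (∀ z ∈ N x ∩ N y, (N z ∩ (N x \ insert y (N y))).card = (N z ∩ (N y \ insert x (N x))).card) ∧
    (∀ a ∈ N x \ insert y (N y),
      (N a ∩ (N x ∩ N y)).card + (N a ∩ (N x \ insert y (N y))).card = t) ∧
    (∀ a ∈ N y \ insert x (N x),
      (N a ∩ (N x ∩ N y)).card + (N a ∩ (N y \ insert x (N x))).card = t) ∧
    ∀ g : V → ℤ, ∑ z ∈ N y, g z - ∑ z ∈ N x, g z =
      g x - g y + ∑ z ∈ N y \ insert x (N x), g z - ∑ z ∈ N x \ insert y (N y), g z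

/-- Double counting. -/
def S_DBL : Prop := ∀ (V : Type) [DecidableEq V] (N : V → Finset V) (T A B A₁ B₁ : Finset V),
  (∀ u v, u ∈ N v ↔ v ∈ N u) → A₁ ⊆ A → B₁ ⊆ B →
  (∀ z ∈ T, (N z ∩ A).card = (N z ∩ B).card) →
  (∀ z ∈ T, (∀ a ∈ A, a ∈ N z → a ∈ A₁) ∨ (∀ a ∈ B, a ∈ N z → a ∈ B₁)) →
  ∑ a ∈ A \ A₁, (N a ∩ T).card + ∑ a ∈ B \ B₁, (N a ∩ T).card ≤
    ∑ a ∈ A₁, (N a ∩ T).card + ∑ a ∈ B₁, (N a ∩ T).card

/-- One side. -/
def S_HLF : Prop := ∀ (V : Type) [DecidableEq V] (N : V → Finset V) (T A A₁ : Finset V) (t : ℕ),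
  (∀ u v, u ∈ N v ↔ v ∈ N u) → (∀ v, v ∉ N v) → A₁ ⊆ A →
  (∀ a ∈ A, (N a ∩ T).card + (N a ∩ A).card = t) →
  (∑ a ∈ A₁, ((N a ∩ T).card : ℤ)) - ∑ a ∈ A \ A₁, ((N a ∩ T).card : ℤ) ≤
    t * (A.card - 2 * (A \ A₁).card) + (A \ A₁).card * ((A \ A₁).card - 1)

/-- Arithmetic. -/
def S_ARI : Prop := ∀ t b u v : ℕ, u ≤ b → v ≤ b → 2 * (b - 1) ^ 2 < t * (t + 1) →
  0 ≤ (t : ℤ) * (b - 2 * u) + u * (u - 1) + (t * (b - 2 * v) + v * (v - 1)) → u + v ≤ t + 1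

/-- The curvature inequality. -/
def S_LOC : Prop := ∀ (V : Type) [DecidableEq V] (N : V → Finset V) (k t b : ℕ), NKT N k t →
  k = t + b + 1 → 2 * (b - 1) ^ 2 < t * (t + 1) → ∀ f : V → ℤ,
  (∀ u v, u ∈ N v → |f u - f v| ≤ 1) → ∀ x y, y ∈ N x → f y = f x + 1 →
    ∑ z ∈ N y, f z - ∑ z ∈ N x, f z ≤ k - 1

/-- Finiteness. -/
def S_FIN : Prop := ∀ (V : Type) (G : SimpleGraph V) (k t : ℕ), IsKT G k t → G.Connected →
  2 * (k - t - 2) ^ 2 < t * (t + 1) → Finite V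

/-! ## Existence -/

def Ex (k t : ℕ) : Prop := ∃ (V : Type) (_ : Finite V) (_ : Nonempty V) (G : SimpleGraph V),
  IsKT G k t

/-- Cartesian products. -/
def S_BOX : Prop := ∀ k₁ k₂ t : ℕ, Ex k₁ t → Ex k₂ t → Ex (k₁ + k₂) t

/-- Johnson graphs. -/
def S_JOH : Prop := ∀ t d : ℕ, 1 ≤ d → d ≤ t + 1 → Ex (d * (t + 2 - d)) t

/-- The degrees. -/
def S_NUM : Prop := ∀ k t : ℕ, 1 ≤ t → Even (k * t) →
  (t + 1) * (Nat.sqrt (2 * t) + 1 + 3 * (Nat.sqrt (2 * (Nat.sqrt (2 * t) + 1)) + 1)) ≤ k →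
  ∃ a d e r : ℕ, d ≤ t + 1 ∧ e ≤ t + 1 ∧
    k = a * (t + 1) + d * (t + 2 - d) + e * (t + 2 - e) + r * (2 * t)

end Pool.Agent.H635KT
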