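import Mathlib
import Pool.Agent.H635KT.Stm

set_option autoImplicit false

namespace Pool.Agent.H635KT.JCNT

open Pool.Agent.H635KT

theorem split {V : Type} [DecidableEq V] {M : Type} [AddCommMonoid M] (X Y : Finset V) (y : V)
    (hy : y ∈ X) (hy' : y ∉ Y) (g : V → M) :
    ∑ z ∈ X, g z = g y + (∑ z ∈ X ∩ Y, g z + ∑ z ∈ X \ insert y Y, g z) := by
  have h1 : X = insert y ((X ∩ Y) ∪ (X \ insert y Y)) := by
    ext z
    simp only [Finset.mem_insert, Finset.mem_union, Finset.mem_inter, Finset.mem_sdiff]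
    constructor
    · intro hz
      by_cases h2 : z = y
      · exact Or.inl h2
      · by_cases h3 : z ∈ Y
        · exact Or.inr (Or.inl ⟨hz, h3⟩)
        · exact Or.inr (Or.inr ⟨hz, fun h => h.elim h2 h3⟩)
    · rintro (rfl | ⟨h, -⟩ | ⟨h, -⟩)
      · exact hy
      · exact h
      · exact h
  have h2 : y ∉ (X ∩ Y) ∪ (X \ insert y Y) := by
    intro h
    rcases Finset.mem_union.1 h with h | h
    · exact hy' (Finset.mem_inter.1 h).2
    · exact (Finset.mem_sdiff.1 h).2 (Finset.mem_insert_self y Y)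
  have h3 : Disjoint (X ∩ Y) (X \ insert y Y) := by
    rw [Finset.disjoint_left]
    intro z hz hz'
    rw [Finset.mem_inter] at hz
    rw [Finset.mem_sdiff, Finset.mem_insert] at hz'
    exact hz'.2 (Or.inr hz.2)
  calc ∑ z ∈ X, g z = ∑ z ∈ insert y ((X ∩ Y) ∪ (X \ insert y Y)), g z :=
        congrArg (fun S => ∑ z ∈ S, g z) h1
    _ = _ := by rw [Finset.sum_insert h2, Finset.sum_union h3]

theorem cd {V : Type} [DecidableEq V] (W S : Finset V) :
    (W ∩ S).card = ∑ z ∈ S, if z ∈ W then 1 else 0 := by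
  rw [Finset.inter_comm, ← Finset.filter_mem_eq_inter, Finset.card_filter]

theorem splitc {V : Type} [DecidableEq V] (W X Y : Finset V) (y : V)
    (hy : y ∈ X) (hy' : y ∉ Y) :
    (W ∩ X).card = (if y ∈ W then 1 else 0) +
      ((W ∩ (X ∩ Y)).card + (W ∩ (X \ insert y Y)).card) := by
  rw [cd W X, cd W (X ∩ Y), cd W (X \ insert y Y)]
  exact split X Y y hy hy' _

theorem t_CNT : S_CNT := by
  intro V _ N k t b hN hk x y hxy
  obtain ⟨hs, hi, hc, ht⟩ := hN
  have hyx : x ∈ N y := (hs y x).1 hxy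
  have hT : (N x ∩ N y).card = t := ht x y hyx
  have hT' : (N y ∩ N x).card = t := ht y x hxy
  refine ⟨?_, ?_, ?_, ?_, ?_, ?_⟩
  · have h := split (N x) (N y) y hxy (hi y) (fun _ => (1 : ℕ))
    simp only [Finset.sum_const, smul_eq_mul, mul_one] at h
    rw [hT, hc x] at h
    omega
  · have h := split (N y) (N x) x hyx (hi x) (fun _ => (1 : ℕ))
    simp only [Finset.sum_const, smul_eq_mul, mul_one] at h
    rw [hT', hc y] at h
    omega
  · intro z hz
    rw [Finset.mem_inter] at hz
    have h1 := splitc (N z) (N x) (N y) y hxy (hi y)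
    have h2 := splitc (N z) (N y) (N x) x hyx (hi x)
    rw [ht z x hz.1, if_pos ((hs z y).1 hz.2)] at h1
    rw [ht z y hz.2, if_pos ((hs z x).1 hz.1), Finset.inter_comm (N y) (N x)] at h2
    omega
  · intro a ha
    rw [Finset.mem_sdiff, Finset.mem_insert] at ha
    have h1 := splitc (N a) (N x) (N y) y hxy (hi y)
    rw [ht a x ha.1, if_neg (fun h => ha.2 (Or.inr ((hs y a).1 h)))] at h1
    omega
  · intro a ha
    rw [Finset.mem_sdiff, Finset.mem_insert] at ha
    have h1 := splitc (N a) (N y) (N x) x hyx (hi x)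
    rw [ht a y ha.1, if_neg (fun h => ha.2 (Or.inr ((hs x a).1 h))),
      Finset.inter_comm (N y) (N x)] at h1
    omega
  · intro g
    have h1 := split (N x) (N y) y hxy (hi y) g
    have h2 := split (N y) (N x) x hyx (hi x) g
    rw [Finset.inter_comm (N y) (N x)] at h2
    rw [h1, h2]
    ring

end Pool.Agent.H635KT.JCNT
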