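import Mathlib
import Pool.Agent.H635KT.JCNT

set_option autoImplicit false

/-!
# The curvature inequality for `(k,t)`-regular graphs with `4 (k - t - 1) ≤ 3 t + 4`
-/

namespace Pool.Agent.H635KT.Loc2

open Pool.Agent.H635KT

theorem sum_swap (V : Type) [DecidableEq V] (N : V → Finset V) (S T : Finset V)
    (hsym : ∀ u v, u ∈ N v ↔ v ∈ N u) :
    ∑ a ∈ S, (N a ∩ T).card = ∑ z ∈ T, (N z ∩ S).card := by
  have h1 : ∀ a ∈ S, (N a ∩ T).card = ∑ z ∈ T, if z ∈ N a then 1 else 0 := by
    intro a _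
    rw [← Finset.card_filter]
    congr 1
    ext z
    simp [and_comm]
  have h2 : ∀ z ∈ T, (N z ∩ S).card = ∑ a ∈ S, if z ∈ N a then 1 else 0 := by
    intro z _
    rw [← Finset.card_filter]
    congr 1
    ext a
    simp [and_comm, hsym a z]
  rw [Finset.sum_congr rfl h1, Finset.sum_congr rfl h2, Finset.sum_comm]

theorem dbl (V : Type) [DecidableEq V] (N : V → Finset V) (T A A₀ T₀ : Finset V) (m q : ℕ)
    (hsym : ∀ u v, u ∈ N v ↔ v ∈ N u) (hA : A₀ ⊆ A)
    (hm : ∀ a ∈ A₀, m ≤ (N a ∩ T).card) (hT : ∀ a ∈ A₀, ∀ z ∈ T, z ∈ N a → z ∈ T₀)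
    (hq : ∀ z ∈ T₀, (N z ∩ A).card ≤ q) : A₀.card * m ≤ T₀.card * q := by
  calc A₀.card * m = ∑ a ∈ A₀, m := by rw [Finset.sum_const, smul_eq_mul]
    _ ≤ ∑ a ∈ A₀, (N a ∩ T₀).card := Finset.sum_le_sum fun a ha => (hm a ha).trans
        (Finset.card_le_card fun z hz => by
          rw [Finset.mem_inter] at hz ⊢
          exact ⟨hz.1, hT a ha z hz.2 hz.1⟩)
    _ = ∑ z ∈ T₀, (N z ∩ A₀).card := sum_swap V N A₀ T₀ hsym
    _ ≤ ∑ z ∈ T₀, q := Finset.sum_le_sum fun z hz =>
        (Finset.card_le_card (Finset.inter_subset_inter_left hA)).trans (hq z hz)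
    _ = T₀.card * q := by rw [Finset.sum_const, smul_eq_mul]

theorem ari (t b m u v p q r s : ℕ) (ht : 1 ≤ t) (hb : 4 * b ≤ 3 * t + 4) (hm : m + b = t + 1)
    (hu : u + p = b) (hv : v + q = b) (hrs : r + s = t) (h1 : u * m ≤ r * q) (h2 : v * m ≤ s * p) :
    u + v ≤ t + 1 := by
  by_contra hcon
  push Not at hcon
  have hm1 : 1 ≤ m := by omega
  -- pass to the integers
  have e1 : (u : ℤ) = b - p := by omega
  have e2 : (v : ℤ) = b - q := by omega
  have e3 : (m : ℤ) = t + 1 - b := by omega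
  have e4 : (s : ℤ) = t - r := by omega
  have hS : (p : ℤ) + q ≤ 2 * b - t - 2 := by omega
  have hb' : 4 * (b : ℤ) ≤ 3 * t + 4 := by exact_mod_cast hb
  have ht' : (1 : ℤ) ≤ t := by exact_mod_cast ht
  have hm' : (1 : ℤ) ≤ m := by exact_mod_cast hm1
  have p0 : (0 : ℤ) ≤ p := by positivity
  have q0 : (0 : ℤ) ≤ q := by positivity
  have h1' : (u : ℤ) * m ≤ r * q := by exact_mod_cast h1
  have h2' : (v : ℤ) * m ≤ s * p := by exact_mod_cast h2
  -- `m (u p + v q) ≤ t p q`
  have h3 : (m : ℤ) * (u * p + v * q) ≤ t * (p * q) := by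
    have a1 := mul_le_mul_of_nonneg_right h1' p0
    have a2 := mul_le_mul_of_nonneg_right h2' q0
    rw [e4] at a2
    have a3 : (m : ℤ) * (u * p + v * q) = u * m * p + v * m * q := by ring
    have a4 : (r : ℤ) * q * p + (t - r) * p * q = t * (p * q) := by ring
    linarith
  rw [e1, e2] at h3
  -- `m S (b - S) ≤ (t - 2 m) p q`
  have h4 : (m : ℤ) * ((p + q) * (b - (p + q))) ≤ (t - 2 * m) * (p * q) := by
    have a1 : (m : ℤ) * ((b - p) * p + (b - q) * q) =
        m * ((p + q) * (b - (p + q))) + 2 * m * (p * q) := by ring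
    have a2 : ((t : ℤ) - 2 * m) * (p * q) = t * (p * q) - 2 * m * (p * q) := by ring
    linarith
  have hb1 : (1 : ℤ) ≤ b := by omega
  have hzero : ¬ ((p : ℤ) + q = 0) := by
    intro h8
    have hp : p = 0 := by omega
    have hq : q = 0 := by omega
    subst hp; subst hq
    have : u * m = 0 := by
      rw [mul_zero] at h1
      omega
    rcases Nat.mul_eq_zero.1 this with h9 | h9 <;> omega
  have hSpos : 0 < (p : ℤ) + q := by omega
  rcases le_or_gt (2 * (m : ℤ)) t with h5 | h5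
  · have h6 : ((t : ℤ) - 2 * m) * (4 * (p * q)) ≤ (t - 2 * m) * (p + q) ^ 2 := by
      apply mul_le_mul_of_nonneg_left
      · have := sq_nonneg ((p : ℤ) - q)
        have a1 : ((p : ℤ) - q) ^ 2 = (p + q) ^ 2 - 4 * (p * q) := by ring
        linarith
      · linarith
    have h7 : (p + q : ℤ) * (4 * m * (b - (p + q))) ≤ (p + q) * ((t - 2 * m) * (p + q)) := by
      have a1 : (p + q : ℤ) * (4 * m * (b - (p + q))) = 4 * (m * ((p + q) * (b - (p + q)))) := by
        ring
      have a2 : ((t : ℤ) - 2 * m) * (4 * (p * q)) = 4 * ((t - 2 * m) * (p * q)) := by ring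
      have a3 : (p + q : ℤ) * ((t - 2 * m) * (p + q)) = (t - 2 * m) * (p + q) ^ 2 := by ring
      linarith
    have h9 := le_of_mul_le_mul_left h7 hSpos
    have h10 : 4 * (m : ℤ) * b ≤ (t + 2 * m) * (p + q) := by
      have a1 : 4 * (m : ℤ) * b = 4 * m * (b - (p + q)) + 4 * m * (p + q) := by ring
      have a2 : (t + 2 * m : ℤ) * (p + q) = (t - 2 * m) * (p + q) + 4 * m * (p + q) := by ring
      linarith
    have h11 : (t + 2 * (m : ℤ)) * (p + q) ≤ (t + 2 * m) * (2 * b - t - 2) := by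
      apply mul_le_mul_of_nonneg_left hS
      omega
    have h12 : 4 * (m : ℤ) * b ≤ (t + 2 * m) * (2 * b - t - 2) := h10.trans h11
    rw [e3] at h12
    have h13 : 4 * (b : ℤ) * (t + 1) ≤ (3 * t + 4) * (t + 1) := by
      apply mul_le_mul_of_nonneg_right hb'
      linarith
    have a1 : ((t : ℤ) + 2 * (t + 1 - b)) * (2 * b - t - 2) =
        4 * (t + 1 - b) * b + 4 * b * (t + 1) - (3 * t + 4) * (t + 1) - t := by ring
    linarith
  · have h6 : ((t : ℤ) - 2 * m) * (p * q) ≤ 0 := by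
      apply mul_nonpos_of_nonpos_of_nonneg
      · linarith
      · exact mul_nonneg p0 q0
    have h8 : (0 : ℤ) < b - (p + q) := by omega
    have := mul_pos (by omega : (0 : ℤ) < m) (mul_pos hSpos h8)
    linarith

theorem loc2 (V : Type) [DecidableEq V] (N : V → Finset V) (k t b : ℕ) (hN : NKT N k t)
    (hk : k = t + b + 1) (ht : 1 ≤ t) (hb : 4 * b ≤ 3 * t + 4) (f : V → ℤ)
    (hf : ∀ u v, u ∈ N v → |f u - f v| ≤ 1) (x y : V) (hy : y ∈ N x) (hfy : f y = f x + 1) :
    ∑ z ∈ N y, f z - ∑ z ∈ N x, f z ≤ k - 1 := by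
  obtain ⟨hA, hB, hz, hAt, hBt, hsum⟩ := JCNT.t_CNT V N k t b hN hk x y hy
  obtain ⟨hsym, hirr, hcard, htri⟩ := hN
  have hTc : (N x ∩ N y).card = t := by
    rw [Finset.inter_comm]; exact htri y x hy
  set T : Finset V := N x ∩ N y with hT
  set A : Finset V := N x \ insert y (N y) with hAdef
  set B : Finset V := N y \ insert x (N x) with hBdef
  set A₁ : Finset V := A.filter (fun a => f x ≤ f a) with hA₁
  set B₁ : Finset V := B.filter (fun a => f a ≤ f y) with hB₁
  set T₀ : Finset V := T.filter (fun z => f z = f x) with hT₀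
  have hAsub : A₁ ⊆ A := Finset.filter_subset _ _
  have hBsub : B₁ ⊆ B := Finset.filter_subset _ _
  have hTsub : T₀ ⊆ T := Finset.filter_subset _ _
  have hfz : ∀ z ∈ T, f z = f x ∨ f z = f x + 1 := by
    intro z hzT
    rw [hT, Finset.mem_inter] at hzT
    have e1 := abs_le.1 (hf z x hzT.1)
    have e2 := abs_le.1 (hf z y hzT.2)
    omega
  have cA : A₁.card + (A \ A₁).card = b := by
    rw [add_comm, Finset.card_sdiff_add_card_eq_card hAsub, hA]
  have cB : B₁.card + (B \ B₁).card = b := by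
    rw [add_comm, Finset.card_sdiff_add_card_eq_card hBsub, hB]
  have cT : T₀.card + (T \ T₀).card = t := by
    rw [add_comm, Finset.card_sdiff_add_card_eq_card hTsub, hTc]
  obtain ⟨m, hm⟩ : ∃ m, m + b = t + 1 := ⟨t + 1 - b, by omega⟩
  -- every element of `A` (of `B`) has at least `m` neighbours in `T`
  have hside : ∀ S : Finset V, S.card = b → (∀ a ∈ S, (N a ∩ T).card + (N a ∩ S).card = t) →
      ∀ a ∈ S, m ≤ (N a ∩ T).card := by
    intro S hS hSt a ha
    have e1 := hSt a ha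
    have e2 : (N a ∩ S).card ≤ (S.erase a).card := by
      apply Finset.card_le_card
      intro z hz
      rw [Finset.mem_inter] at hz
      rw [Finset.mem_erase]
      refine ⟨?_, hz.2⟩
      rintro rfl
      exact hirr _ hz.1
    rw [Finset.card_erase_of_mem ha, hS] at e2
    have e3 : 1 ≤ b := by rw [← hS]; exact Finset.card_pos.2 ⟨a, ha⟩
    omega
  have i1 : (A \ A₁).card * m ≤ T₀.card * B₁.card := by
    refine dbl V N T A (A \ A₁) T₀ m _ hsym Finset.sdiff_subset
      (fun a ha => hside A hA hAt a (Finset.mem_sdiff.1 ha).1) ?_ ?_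
    · intro a ha z hzT hza
      rw [Finset.mem_sdiff, hA₁, Finset.mem_filter, not_and] at ha
      have e1 := ha.2 ha.1
      have e3 := abs_le.1 (hf z a hza)
      refine Finset.mem_filter.2 ⟨hzT, ?_⟩
      rcases hfz z hzT with h | h <;> omega
    · intro z hzT
      rw [hT₀, Finset.mem_filter] at hzT
      rw [hz z hzT.1]
      apply Finset.card_le_card
      intro a ha
      rw [Finset.mem_inter] at ha
      have e3 := abs_le.1 (hf a z ha.1)
      exact Finset.mem_filter.2 ⟨ha.2, by omega⟩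
  have i2 : (B \ B₁).card * m ≤ (T \ T₀).card * A₁.card := by
    refine dbl V N T B (B \ B₁) (T \ T₀) m _ hsym Finset.sdiff_subset
      (fun a ha => hside B hB hBt a (Finset.mem_sdiff.1 ha).1) ?_ ?_
    · intro a ha z hzT hza
      rw [Finset.mem_sdiff, hB₁, Finset.mem_filter, not_and] at ha
      have e1 := ha.2 ha.1
      have e3 := abs_le.1 (hf z a hza)
      rw [Finset.mem_sdiff, hT₀, Finset.mem_filter]
      refine ⟨hzT, fun h => ?_⟩
      omega
    · intro z hzT
      rw [Finset.mem_sdiff, hT₀, Finset.mem_filter, not_and] at hzT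
      rw [← hz z hzT.1]
      apply Finset.card_le_card
      intro a ha
      rw [Finset.mem_inter] at ha
      have e3 := abs_le.1 (hf a z ha.1)
      refine Finset.mem_filter.2 ⟨ha.2, ?_⟩
      rcases hfz z hzT.1 with h | h
      · exact absurd h (hzT.2 hzT.1)
      · omega
  have huv : (A \ A₁).card + (B \ B₁).card ≤ t + 1 :=
    ari t b m _ _ A₁.card B₁.card T₀.card (T \ T₀).card ht hb hm (by omega) (by omega) cT i1 i2
  have sA : (A₁.card : ℤ) * f x + (A \ A₁).card * (f x - 1) ≤ ∑ a ∈ A, f a := by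
    rw [← Finset.sum_sdiff hAsub, add_comm]
    refine add_le_add ?_ ?_
    · rw [← nsmul_eq_mul]
      refine Finset.card_nsmul_le_sum _ _ _ fun a ha => ?_
      have e1 := abs_le.1 (hf a x (by
        have := (Finset.mem_sdiff.1 ha).1
        exact (Finset.mem_sdiff.1 this).1))
      omega
    · rw [← nsmul_eq_mul]
      refine Finset.card_nsmul_le_sum _ _ _ fun a ha => (Finset.mem_filter.1 ha).2
  have sB : ∑ a ∈ B, f a ≤ (B₁.card : ℤ) * (f x + 1) + (B \ B₁).card * (f x + 2) := by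
    rw [← Finset.sum_sdiff hBsub, add_comm]
    refine add_le_add ?_ ?_
    · rw [← nsmul_eq_mul]
      refine Finset.sum_le_card_nsmul _ _ _ fun a ha => ?_
      have := (Finset.mem_filter.1 ha).2
      omega
    · rw [← nsmul_eq_mul]
      refine Finset.sum_le_card_nsmul _ _ _ fun a ha => ?_
      have e1 := abs_le.1 (hf a y (by
        have := (Finset.mem_sdiff.1 ha).1
        exact (Finset.mem_sdiff.1 this).1))
      omega
  have hs := hsum f
  have cA' : (A₁.card : ℤ) = b - (A \ A₁).card := by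
    have : (A₁.card : ℤ) + (A \ A₁).card = b := by exact_mod_cast cA
    linarith
  have cB' : (B₁.card : ℤ) = b - (B \ B₁).card := by
    have : (B₁.card : ℤ) + (B \ B₁).card = b := by exact_mod_cast cB
    linarith
  have huv' : ((A \ A₁).card : ℤ) + (B \ B₁).card ≤ t + 1 := by exact_mod_cast huv
  have hk' : (k : ℤ) = t + b + 1 := by exact_mod_cast hk
  rw [cA'] at sA
  rw [cB'] at sB
  rw [hs, hk', hfy]
  nlinarith [sA, sB, huv']

end Pool.Agent.H635KT.Loc2
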