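import Mathlib
import Pool.Agent.H635KT.Loc2

set_option autoImplicit false

namespace Pool.Agent.H635KT.Fin2

open Pool.Agent.H635KT

theorem fin_pred {V : Type} {G : SimpleGraph V} (hc : G.Connected) {o v : V} {n : ℕ}
    (h : G.dist o v = n + 1) : ∃ x, G.Adj x v ∧ G.dist o x = n := by
  obtain ⟨p, hp⟩ := hc.exists_walk_length_eq_dist v o
  rw [SimpleGraph.dist_comm] at h
  rw [h] at hp
  cases p with
  | nil => simp at hp
  | cons hadj q =>
    rename_i x
    rw [SimpleGraph.Walk.length_cons] at hp
    refine ⟨x, hadj.symm, ?_⟩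
    have h1 : G.dist x o ≤ q.length := SimpleGraph.dist_le q
    have h2 : G.dist v o ≤ G.dist v x + G.dist x o := hc.dist_triangle
    have h3 : G.dist v x = 1 := SimpleGraph.dist_eq_one_iff_adj.2 hadj
    rw [SimpleGraph.dist_comm]
    omega

theorem fin_lip {V : Type} {G : SimpleGraph V} (hc : G.Connected) {o u v : V}
    (h : G.Adj u v) : G.dist o u ≤ G.dist o v + 1 := by
  have h2 : G.dist o u ≤ G.dist o v + G.dist v u := hc.dist_triangle
  have h3 : G.dist v u = 1 := SimpleGraph.dist_eq_one_iff_adj.2 h.symm
  omega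

theorem fin2 (V : Type) (G : SimpleGraph V) (k t : ℕ) (hG : IsKT G k t) (hc : G.Connected)
    (ht : 1 ≤ t) (hlt : 4 * k ≤ 7 * t + 8) : Finite V := by
  classical
  by_cases hV : Subsingleton V
  · exact Finite.of_subsingleton
  rw [not_subsingleton_iff_nontrivial] at hV
  obtain ⟨o, w, how⟩ := hV
  -- the neighbours
  have hfin : ∀ v, (G.neighborSet v).Finite := fun v => Set.finite_of_encard_eq_coe (hG.1 v)
  let N : V → Finset V := fun v => (hfin v).toFinset
  have hN : ∀ u v, u ∈ N v ↔ G.Adj v u := by
    intro u v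
    simp [N]
  have hcoe : ∀ v, ((N v : Finset V) : Set V) = G.neighborSet v := by
    intro v
    simp [N]
  have hcard : ∀ v, (N v).card = k := by
    intro v
    have h2 := hG.1 v
    rw [← hcoe v, Set.encard_coe_eq_coe_finsetCard] at h2
    exact_mod_cast h2
  have hNKT : NKT N k t := by
    refine ⟨fun u v => ?_, fun v => ?_, hcard, fun u v huv => ?_⟩
    · rw [hN, hN]
      exact G.adj_comm _ _
    · rw [hN]
      exact G.loopless.irrefl v
    · have h2 := hG.2 u v ((hN u v).1 huv).symm
      rw [← hcoe u, ← hcoe v, ← Finset.coe_inter, Set.encard_coe_eq_coe_finsetCard] at h2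
      exact_mod_cast h2
  -- an edge
  have hk : t + 1 ≤ k := by
    obtain ⟨p⟩ := hc.preconnected o w
    cases p with
    | nil => exact absurd rfl how
    | cons hadj q =>
      rename_i x
      have h2 := hNKT.2.2.2 x o ((hN x o).2 hadj)
      have h3 : N x ∩ N o ⊆ (N o).erase x := by
        intro z hz
        rw [Finset.mem_inter] at hz
        rw [Finset.mem_erase]
        refine ⟨?_, hz.2⟩
        rintro rfl
        exact hNKT.2.1 _ hz.1
      have h4 := Finset.card_le_card h3
      rw [h2, Finset.card_erase_of_mem ((hN x o).2 hadj), hcard] at h4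
      have h5 : 1 ≤ (N o).card := Finset.card_pos.2 ⟨x, (hN x o).2 hadj⟩
      rw [hcard] at h5
      omega
  obtain ⟨b, hb⟩ : ∃ b, k = t + b + 1 := ⟨k - t - 1, by omega⟩
  have hb1 : 4 * b ≤ 3 * t + 4 := by omega
  let f : V → ℤ := fun v => (G.dist o v : ℤ)
  have hLip : ∀ u v, u ∈ N v → |f u - f v| ≤ 1 := by
    intro u v huv
    have h2 := (hN u v).1 huv
    have h3 := fin_lip (o := o) hc h2
    have h4 := fin_lip (o := o) hc h2.symm
    simp only [f]
    rw [abs_le]
    constructor <;> omega
  have hloc := Loc2.loc2 V N k t b hNKT hb ht hb1 f hLip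
  have hD : ∀ n : ℕ, ∀ v, G.dist o v = n → ∑ z ∈ N v, f z - k * f v ≤ k - f v := by
    intro n
    induction n with
    | zero =>
      intro v hv
      have h2 : ∑ z ∈ N v, f z ≤ ∑ z ∈ N v, (1 : ℤ) := by
        refine Finset.sum_le_sum fun z hz => ?_
        have h3 := fin_lip (o := o) hc ((hN z v).1 hz).symm
        simp only [f]
        omega
      rw [Finset.sum_const, hcard] at h2
      have h4 : f v = 0 := by simp only [f, hv]; rfl
      rw [h4]
      simp only [nsmul_eq_mul, mul_one] at h2
      linarith
    | succ n ih =>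
      intro v hv
      obtain ⟨x, hxv, hx⟩ := fin_pred hc hv
      have h2 := ih x hx
      have hfx : f v = f x + 1 := by
        simp only [f, hv, hx]
        push_cast
        ring
      have h3 := hloc x v ((hN v x).2 hxv) hfx
      rw [hfx]
      nlinarith
  have hE : ∀ v, -(k : ℤ) ≤ ∑ z ∈ N v, f z - k * f v := by
    intro v
    have h2 : ∑ z ∈ N v, (f v - 1) ≤ ∑ z ∈ N v, f z := by
      refine Finset.sum_le_sum fun z hz => ?_
      have h3 := (abs_le.1 (hLip z v hz)).1
      linarith
    rw [Finset.sum_const, hcard, nsmul_eq_mul] at h2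
    nlinarith
  have hbd : ∀ v, G.dist o v ≤ 2 * k := by
    intro v
    have h2 := hD _ v rfl
    have h3 := hE v
    have h4 : f v ≤ 2 * k := by linarith
    simp only [f] at h4
    exact_mod_cast h4
  have hball : ∀ n : ℕ, {v | G.dist o v ≤ n}.Finite := by
    intro n
    induction n with
    | zero =>
      refine (Set.finite_singleton o).subset fun v hv => ?_
      have h2 : G.dist o v = 0 := Nat.le_zero.1 hv
      rw [hc.dist_eq_zero_iff] at h2
      exact h2.symm
    | succ n ih =>
      have h2 : {v | G.dist o v ≤ n + 1} ⊆ {v | G.dist o v ≤ n} ∪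
          ⋃ x ∈ {v | G.dist o v ≤ n}, G.neighborSet x := by
        intro v hv
        have hv' : G.dist o v ≤ n + 1 := hv
        by_cases h3 : G.dist o v ≤ n
        · exact Or.inl h3
        · right
          have h4 : G.dist o v = n + 1 := by omega
          obtain ⟨x, hxv, hx⟩ := fin_pred hc h4
          refine Set.mem_biUnion (x := x) ?_ hxv
          show G.dist o x ≤ n
          omega
      exact (ih.union (ih.biUnion fun x _ => hfin x)).subset h2
  have huniv : (Set.univ : Set V).Finite :=
    (hball (2 * k)).subset fun v _ => hbd v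
  exact Set.finite_univ_iff.1 huniv

end Pool.Agent.H635KT.Fin2

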